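import Pool.Agent.H4.NU2
import Pool.Agent.H4.NUDefs

set_option autoImplicit false

namespace Pool.Agent.Results.MP_734462_al.NoUniversalNil

open Pool.Agent.H4.NU

theorem result (F : Type) [Field F] [Countable F] :
    ¬ ∃ (U : Type) (_ : NonUnitalRing U) (_ : Module F U) (_ : IsScalarTower F U U)
      (_ : SMulCommClass F U U), UniversalNil F U := by
  rintro ⟨U, _, _, _, _, hU⟩
  exact diag hU.nil hU.countable_dim hU.maps_onto

end Pool.Agent.Results.MP_734462_al.NoUniversalNil
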